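import Mathlib
import Pool.Agent.H576.CE.Stm
import Pool.Agent.H672.CTLink

/-!
helper673 for helper576 (project CE, MP_10effd_pr): hierarchical links for a cluster (task LINK2).
-/

set_option autoImplicit false

namespace Pool.Agent.H673.CE

open Finset Pool.Agent.TH112.BW Pool.Agent.H576.CT Pool.Agent.H576.CE

theorem mem_nbd {V : Type} [Fintype V] {G : SimpleGraph V} {K : Finset V} {t : ℕ} {x : V} :
    x ∈ nbd G K t ↔ ∃ y ∈ K, G.dist x y ≤ t := by
  classical
  unfold nbd
  rw [mem_filter]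
  exact ⟨fun h => h.2, fun h => ⟨mem_univ _, h⟩⟩

/-- the path inside a star shaped set to its centre -/
theorem star_walk {V : Type} {G : SimpleGraph V} {u : V} {K : Finset V} (hu : u ∈ K)
    (hstar : ∀ x ∈ K, x ≠ u → ∃ z ∈ K, G.Adj x z ∧ G.dist z u + 1 = G.dist x u) :
    ∀ (n : ℕ) (x : V), x ∈ K → G.dist x u = n →
      ∃ w : G.Walk x u, w.length = G.dist x u ∧ ∀ z ∈ w.support, z ∈ K := by
  intro n
  induction n with
  | zero =>
    intro x hx h0
    by_cases hxu : x = u
    · subst hxu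
      refine ⟨SimpleGraph.Walk.nil, by simp, fun z hz => ?_⟩
      rw [SimpleGraph.Walk.support_nil, List.mem_singleton] at hz
      rw [hz]
      exact hx
    · obtain ⟨z, _, _, hz⟩ := hstar x hx hxu
      omega
  | succ n ih =>
    intro x hx hn
    by_cases hxu : x = u
    · subst hxu
      refine ⟨SimpleGraph.Walk.nil, by simp, fun z hz => ?_⟩
      rw [SimpleGraph.Walk.support_nil, List.mem_singleton] at hz
      rw [hz]
      exact hx
    · obtain ⟨z, hzK, hxz, hz⟩ := hstar x hx hxu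
      obtain ⟨w, hw1, hw2⟩ := ih z hzK (by omega)
      refine ⟨SimpleGraph.Walk.cons hxz w, ?_, ?_⟩
      · rw [SimpleGraph.Walk.length_cons, hw1, hz]
      · intro t ht
        rw [SimpleGraph.Walk.support_cons, List.mem_cons] at ht
        rcases ht with rfl | ht
        · exact hx
        · exact hw2 t ht

theorem ce_link (h1 : S_NET) : S_LINK2 := by
  intro V _ _ G hG u K huK hstar J r1 hrad A hA hAne
  choose W hW using fun x y => hG.exists_walk_length_eq_dist x y
  have hnet : ∀ j : ℕ, ∃ (P : Finset V) (ν : V → V),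
      (∀ x ∈ P, ∀ y ∈ P, x ≠ y → 2 ^ j ≤ G.dist x y) ∧
      ∀ x, ν x ∈ P ∧ G.dist x (ν x) < 2 ^ j := by
    intro j
    obtain ⟨P, -, hs, hc, -⟩ := h1 V G hG u (2 ^ j) Nat.one_le_two_pow
    choose ν hν using hc
    exact ⟨P, ν, hs, hν⟩
  choose P ν hP hν using hnet
  obtain ⟨p, hp0, hps⟩ : ∃ p : ℕ → V → V, (∀ v, p 0 v = v) ∧
      ∀ j v, p (j + 1) v = ν (j + 1) (p j v) :=
    ⟨fun j => Nat.rec (fun v => v) (fun i q v => ν (i + 1) (q v)) j, fun _ => rfl, fun _ _ => rfl⟩
  have hdist : ∀ j v, G.dist v (p j v) + 2 ≤ 2 ^ (j + 1) := by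
    intro j v
    induction j with
    | zero => rw [hp0, SimpleGraph.dist_self]; norm_num
    | succ j ih =>
      have h3 := hG.dist_triangle (u := v) (v := p j v) (w := p (j + 1) v)
      have h4 := (hν (j + 1) (p j v)).2
      rw [← hps] at h4
      rw [pow_succ 2 (j + 1)]
      omega
  -- the nearby point of the cluster
  have hnear : ∀ v, ∃ y, v ∈ A → y ∈ K ∧ G.dist v y ≤ 1 := by
    intro v
    by_cases hv : v ∈ A
    · obtain ⟨y, hy, hvy⟩ := mem_nbd.1 (hA hv)
      exact ⟨y, fun _ => ⟨hy, hvy⟩⟩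
    · exact ⟨v, fun h => absurd h hv⟩
  choose yy hyy using hnear
  obtain ⟨tg, htg1, htg2⟩ : ∃ tg : ℕ → V → V, (∀ j x, j < J → tg j x = ν (j + 1) x) ∧
      ∀ x, tg J x = u :=
    ⟨fun j x => if j < J then ν (j + 1) x else u, fun j x hj => if_pos hj,
      fun x => if_neg (lt_irrefl _)⟩
  have hwalk : ∀ (j : ℕ) (q : V), ∃ w : G.Walk q (tg j q), j ≤ J → q ∈ A.image (p j) →
      w.length + 1 ≤ (r1 + 2) * 2 ^ j ∧ (j < J → w.length ≤ 2 * 2 ^ j) ∧
      ∀ z ∈ w.support, z ∈ nbd G K (2 ^ (j + 2)) := by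
    intro j q
    by_cases hjq : j ≤ J ∧ q ∈ A.image (p j)
    swap
    · exact ⟨W q (tg j q), fun a b => absurd ⟨a, b⟩ hjq⟩
    obtain ⟨hj, hq⟩ := hjq
    obtain ⟨v, hv, rfl⟩ := mem_image.1 hq
    obtain ⟨hyK, hvy⟩ := hyy v hv
    have hd := hdist j v
    have hp2 : 2 ^ (j + 2) = 4 * 2 ^ j := by rw [pow_add]; ring
    have hp1 : 2 ^ (j + 1) = 2 * 2 ^ j := by rw [pow_add]; ring
    have hp0' : 1 ≤ 2 ^ j := Nat.one_le_two_pow
    have hr : (r1 + 2) * 2 ^ j = r1 * 2 ^ j + 2 * 2 ^ j := by ring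
    rcases hj.lt_or_eq with h | h
    · refine ⟨W (p j v) (tg j (p j v)), fun _ _ => ?_⟩
      have h3 := (hν (j + 1) (p j v)).2
      have h4 : (W (p j v) (tg j (p j v))).length = G.dist (p j v) (ν (j + 1) (p j v)) := by
        rw [hW, htg1 j _ h]
      refine ⟨?_, fun _ => ?_, fun z hz => ?_⟩
      · rw [h4, hr]
        omega
      · rw [h4]
        omega
      · have h5 := Pool.Agent.H672.ct_take _ hz
        rw [h4] at h5
        rw [mem_nbd]
        refine ⟨yy v, hyK, ?_⟩
        have h6 := hG.dist_triangle (u := z) (v := p j v) (w := yy v)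
        have h7 := hG.dist_triangle (u := p j v) (v := v) (w := yy v)
        rw [SimpleGraph.dist_comm (u := z) (v := p j v)] at h6
        rw [SimpleGraph.dist_comm (u := p j v) (v := v)] at h7
        omega
    · subst h
      obtain ⟨w2, hw21, hw22⟩ := star_walk huK hstar _ (yy v) hyK rfl
      rw [htg2]
      refine ⟨(W (p j v) (yy v)).append w2, fun _ _ => ?_⟩
      have h7 := hG.dist_triangle (u := p j v) (v := v) (w := yy v)
      rw [SimpleGraph.dist_comm (u := p j v) (v := v)] at h7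
      have h8 := hrad (yy v) hyK
      refine ⟨?_, fun h => absurd h (lt_irrefl _), fun z hz => ?_⟩
      · rw [SimpleGraph.Walk.length_append, hW, hw21, hr]
        omega
      · rw [SimpleGraph.Walk.mem_support_append_iff] at hz
        rcases hz with hz | hz
        · have h5 := Pool.Agent.H672.ct_drop _ hz
          rw [hW] at h5
          rw [mem_nbd]
          exact ⟨yy v, hyK, by omega⟩
        · rw [mem_nbd]
          exact ⟨z, hw22 z hz, by rw [SimpleGraph.dist_self]; omega⟩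
  choose Wk hWk using hwalk
  obtain ⟨L, hL⟩ : ∃ L : ℕ → Finset V, ∀ j, L j =
      (A.image (p j)).biUnion fun q => (Wk j q).support.toFinset := ⟨_, fun _ => rfl⟩
  have hmem : ∀ v ∈ A, ∀ j, ∀ z ∈ (Wk j (p j v)).support, z ∈ L j := by
    intro v hv j z hz
    rw [hL, mem_biUnion]
    exact ⟨p j v, mem_image_of_mem _ hv, List.mem_toFinset.2 hz⟩
  refine ⟨L, fun j hj => ⟨?_, ?_, (A.image (p j)).card, ?_, card_image_le, ?_⟩, ?_⟩
  · obtain ⟨v, hv⟩ := hAne
    exact ⟨p j v, hmem v hv j _ (SimpleGraph.Walk.start_mem_support _)⟩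
  · intro z hz
    rw [hL, mem_biUnion] at hz
    obtain ⟨q, hq, hz⟩ := hz
    exact (hWk j q hj hq).2.2 z (List.mem_toFinset.1 hz)
  · rw [hL, mul_comm]
    refine card_biUnion_le_card_mul _ _ _ fun q hq => ?_
    refine (List.toFinset_card_le _).trans ?_
    rw [SimpleGraph.Walk.length_support]
    refine (hWk j q hj hq).1.trans (Nat.mul_le_mul_right _ (by omega))
  · intro q hq
    have hp2 : 2 ^ (j + 2) = 4 * 2 ^ j := by rw [pow_add]; ring
    have hp1 : 2 ^ (j + 1) = 2 * 2 ^ j := by rw [pow_add]; ring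
    have hp0' : 1 ≤ 2 ^ j := Nat.one_le_two_pow
    have hsep : ∀ x ∈ A.image (p j), ∀ y ∈ A.image (p j), x ≠ y → 2 ^ j ≤ G.dist x y := by
      intro x hx y hy hxy
      obtain ⟨v, hv, rfl⟩ := mem_image.1 hx
      obtain ⟨v', hv', rfl⟩ := mem_image.1 hy
      rcases Nat.eq_zero_or_pos j with h | h
      · subst h
        rw [pow_zero]
        exact hG.pos_dist_of_ne hxy
      · obtain ⟨i, rfl⟩ : ∃ i, j = i + 1 := ⟨j - 1, by omega⟩
        refine hP (i + 1) _ ?_ _ ?_ hxy
        · rw [hps]; exact (hν (i + 1) _).1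
        · rw [hps]; exact (hν (i + 1) _).1
    have hmb : ∀ x z t, z ∈ ball G x t → G.dist x z ≤ t := fun x z t hz => (mem_filter.1 hz).2
    have hdisj : ∀ x ∈ A.image (p j), ∀ y ∈ A.image (p j), x ≠ y →
        Disjoint (ball G x (2 ^ j / 4)) (ball G y (2 ^ j / 4)) := by
      intro x hx y hy hxy
      rw [Finset.disjoint_left]
      intro z hz1 hz2
      have h3 := hsep x hx y hy hxy
      have h4 := hmb _ _ _ hz1
      have h5 := hmb _ _ _ hz2
      have h6 := hG.dist_triangle (u := x) (v := z) (w := y)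
      rw [SimpleGraph.dist_comm (u := z) (v := y)] at h6
      omega
    calc (A.image (p j)).card * q = ∑ _x ∈ A.image (p j), q := by
          rw [sum_const, smul_eq_mul]
      _ ≤ ∑ x ∈ A.image (p j), (ball G x (2 ^ j / 4)).card := sum_le_sum fun x _ => hq x
      _ = ((A.image (p j)).biUnion fun x => ball G x (2 ^ j / 4)).card := by
          rw [card_biUnion hdisj]
      _ ≤ (nbd G K (2 ^ (j + 2))).card := by
          refine card_le_card fun z hz => ?_
          rw [mem_biUnion] at hz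
          obtain ⟨x, hx, hz⟩ := hz
          obtain ⟨v, hv, rfl⟩ := mem_image.1 hx
          obtain ⟨hyK, hvy⟩ := hyy v hv
          have h4 := hmb _ _ _ hz
          have h5 := hdist j v
          have h6 := hG.dist_triangle (u := z) (v := p j v) (w := yy v)
          have h7 := hG.dist_triangle (u := p j v) (v := v) (w := yy v)
          rw [SimpleGraph.dist_comm (u := z) (v := p j v)] at h6
          rw [SimpleGraph.dist_comm (u := p j v) (v := v)] at h7
          rw [mem_nbd]
          exact ⟨yy v, hyK, by omega⟩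
  · intro f I hI hf v hv
    have hstep : ∀ j ≤ J, f (p j v) - f (tg j (p j v)) ≤
        ((Wk j (p j v)).length : ℝ) * (I / 4 ^ j) ∧
        f (tg j (p j v)) - f (p j v) ≤ ((Wk j (p j v)).length : ℝ) * (I / 4 ^ j) := by
      intro j hj
      exact Pool.Agent.H672.ct_walk (hf j hj) (Wk j (p j v)) (hmem v hv j)
    have hsum : ∀ j ≤ J, f v - f (p j v) ≤ 4 * I * (1 - 1 / 2 ^ j) ∧
        f (p j v) - f v ≤ 4 * I * (1 - 1 / 2 ^ j) := by
      intro j
      induction j with
      | zero => intro _; rw [hp0]; simp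
      | succ j ih =>
        intro hj
        obtain ⟨i1, i2⟩ := ih (by omega)
        obtain ⟨s1, s2⟩ := hstep j (by omega)
        have h5 := (hWk j (p j v) (by omega) (mem_image_of_mem _ hv)).2.1 (by omega)
        have et : f (tg j (p j v)) = f (p (j + 1) v) := by rw [htg1 j _ (by omega), ← hps]
        rw [et] at s1 s2
        have h3 : ((Wk j (p j v)).length : ℝ) ≤ 2 * 2 ^ j := by exact_mod_cast h5
        have h6 : ((Wk j (p j v)).length : ℝ) * (I / 4 ^ j) ≤ 2 * I / 2 ^ j := by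
          have h7 : (4 : ℝ) ^ j = 2 ^ j * 2 ^ j := by
            rw [← mul_pow]; norm_num
          calc ((Wk j (p j v)).length : ℝ) * (I / 4 ^ j) ≤ 2 * 2 ^ j * (I / 4 ^ j) :=
                mul_le_mul_of_nonneg_right h3 (by positivity)
            _ = 2 * I / 2 ^ j := by rw [h7]; field_simp
        have h8 : 4 * I * (1 - 1 / 2 ^ (j + 1)) = 4 * I * (1 - 1 / 2 ^ j) + 2 * I / 2 ^ j := by
          rw [pow_succ]; field_simp; ring
        rw [h8]
        constructor <;> linarith
    obtain ⟨i1, i2⟩ := hsum J le_rfl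
    obtain ⟨s1, s2⟩ := hstep J le_rfl
    have h9 := (hWk J (p J v) le_rfl (mem_image_of_mem _ hv)).1
    have et : f (tg J (p J v)) = f u := by rw [htg2]
    rw [et] at s1 s2
    have h3 : ((Wk J (p J v)).length : ℝ) * (I / 4 ^ J) ≤ ((r1 : ℝ) + 2) * I := by
      have h5 : (Wk J (p J v)).length ≤ (r1 + 2) * 2 ^ J := by omega
      have h6 : ((Wk J (p J v)).length : ℝ) ≤ ((r1 : ℝ) + 2) * 4 ^ J := by
        have h7 : (2 : ℝ) ^ J ≤ 4 ^ J := pow_le_pow_left₀ (by norm_num) (by norm_num) J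
        have h8 : ((Wk J (p J v)).length : ℝ) ≤ ((r1 : ℝ) + 2) * 2 ^ J := by exact_mod_cast h5
        exact h8.trans (mul_le_mul_of_nonneg_left h7 (by positivity))
      calc ((Wk J (p J v)).length : ℝ) * (I / 4 ^ J) ≤ ((r1 : ℝ) + 2) * 4 ^ J * (I / 4 ^ J) :=
            mul_le_mul_of_nonneg_right h6 (by positivity)
        _ = ((r1 : ℝ) + 2) * I := by field_simp
    have h4 : 4 * I * (1 - 1 / 2 ^ J) ≤ 4 * I := by
      have h5 : (0 : ℝ) ≤ 1 / 2 ^ J := by positivity
      nlinarith
    constructor <;> nlinarith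

end Pool.Agent.H673.CE
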